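import Mathlib
import Pool.Agent.R350.IC

/-!
# The real part of the expected answer for almost all finitely generated groups

Let `K` be a number field of degree `n` with `r` infinite places and `A = R_{K/ℚ}(G_m)`, so that
`A(ℚ) = Kˣ` and `A(ℝ) = (K ⊗ ℝ)ˣ`, the unit group of `ℝ ^ r₁ × ℂ ^ r₂`, `r = r₁ + r₂`. Let
`γ_1, …, γ_N ∈ Kˣ` be such that the `n N` conjugates of the `γ_x` are multiplicatively independent. We
consider the groups generated by `l` elements

  `δ_i = ∏_x γ_x ^ (m_{i x})`, `1 ≤ i ≤ l`, `m_{i x} ∈ T`,

for a finite set `T` of integers. For all but `C |T| ^ ((l - 1) N + c)` of the `|T| ^ (l N)` matrices `m`,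
where `c` depends only on `n` and `l`, EVERY subgroup `L` of the group generated by the `δ_i` has the
following property: if the rank of `L` is at most `r` then the identity component of the closure of
`L` in `A(ℝ)` is trivial, and if the rank of `L` is larger than `r` it is the identity component of
`A(ℝ)`. In particular the real part of the expected answer holds for all these groups.

The proof: if the maximal subspace `V` in the logarithmic preimage of the closure is neither `0` nor
everything, there are integer combinations of the logarithms of the `δ_i` and of the kernel of the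
exponential map which are independent over `ℤ`, in number at most `n`, and linearly dependent over
`ℝ` (closed subgroup theorem). This gives a polynomial relation of degree at most `n` between the
coordinates of the logarithms, with coefficients in a space of bounded dimension over the field of
algebraic numbers (since the periods `2 π i` occur) but without any bound for the integers involved.
We show that such relations are rare: the numbers `∑_x m_{i x} log σ (γ_x)` for the different
conjugates `σ` have the same coefficients, and relations between numbers of this kind are treated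
with derivations of ultrapowers of `ℂ` and the theorem of Waldschmidt and Roy on hyperplanes which
contain many points with logarithmic coordinates (in the starting library).
-/

set_option autoImplicit false

namespace Pool.Agent.Results.MP_7de521_nt.AlmostAllSubgroups

open Module NumberField Topology

/-- `A(ℝ) = (K ⊗ ℝ)ˣ`, the unit group of `ℝ ^ r₁ × ℂ ^ r₂`. -/
abbrev RealPoints (K : Type) [Field K] [NumberField K] : Type := (mixedEmbedding.mixedSpace K)ˣ

/-- The closure in `A(ℝ)` of a subgroup of `A(ℚ) = Kˣ`. -/
def cl (K : Type) [Field K] [NumberField K] (L : Subgroup Kˣ) : Set (RealPoints K) :=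
  closure (L.map (Units.map (mixedEmbedding K : K →* mixedEmbedding.mixedSpace K)) :
    Set (RealPoints K))

/-- The conjugates of the `γ_x` are multiplicatively independent. -/
def IndependentConjugates (K : Type) [Field K] [NumberField K] {N : ℕ} (γ : Fin N → Kˣ) : Prop :=
  ∀ e : (K →+* ℂ) → Fin N → ℤ, ∏ σ, ∏ x, σ (γ x : K) ^ e σ x = 1 → e = 0

/-- The group generated by the `δ_i = ∏_x γ_x ^ (m i x)`. -/
def group {K : Type} [Field K] {l N : ℕ} (γ : Fin N → Kˣ) (m : Fin l → Fin N → ℤ) :
    Subgroup Kˣ :=
  Subgroup.closure (Set.range fun i => ∏ x, γ x ^ m i x)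

/-- The rank of `L` is at least `s`: it contains `s` multiplicatively independent elements. -/
def RankAtLeast {K : Type} [Field K] (L : Subgroup Kˣ) (s : ℕ) : Prop :=
  ∃ y : Fin s → Kˣ, (∀ i, y i ∈ L) ∧ ∀ e : Fin s → ℤ, ∏ i, y i ^ e i = 1 → e = 0

/-- For every subgroup `L` the identity component of the closure is trivial if the rank of `L` is at
most the number of infinite places, and the identity component of `A(ℝ)` if it is larger. -/
def ExpectedForSubgroups (K : Type) [Field K] [NumberField K] {l N : ℕ} (γ : Fin N → Kˣ)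
    (m : Fin l → Fin N → ℤ) : Prop :=
  ∀ L ≤ group γ m,
    (¬ RankAtLeast L (Fintype.card (InfinitePlace K) + 1) ∧
      connectedComponentIn (cl K L) 1 = {1}) ∨
    (RankAtLeast L (Fintype.card (InfinitePlace K) + 1) ∧
      connectedComponentIn (cl K L) 1 = connectedComponent 1)

open Classical in
/-- **Main result.** -/
theorem result (n l : ℕ) : ∃ c : ℕ, ∀ N : ℕ, ∃ C : ℕ, ∀ (K : Type) [Field K] [NumberField K],
    finrank ℚ K = n → ∀ γ : Fin N → Kˣ, IndependentConjugates K γ →
    ∀ T : Finset ℤ, T.Nonempty →
      ((Fintype.piFinset fun _ : Fin l => Fintype.piFinset fun _ : Fin N => T).filter fun m =>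
        ¬ ExpectedForSubgroups K γ m).card ≤ C * T.card ^ ((l - 1) * N + c) := by
  refine ⟨2 ^ n * (l * n + n).choose n + (l * n) ^ 2, fun N => ?_⟩
  obtain ⟨C, hC⟩ := Pool.Agent.R350.count_genVec n l N
  refine ⟨C, fun K _ _ hn γ hγ T hT => ?_⟩
  let A := {w : InfinitePlace K // w.IsReal}
  let B := {w : InfinitePlace K // w.IsComplex}
  have hAB : Fintype.card A + 2 * Fintype.card B = n := by
    rw [← hn, ← InfinitePlace.card_add_two_mul_card_eq_rank K]
  have hAB2 : Fintype.card A + Fintype.card B = Fintype.card (InfinitePlace K) := by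
    rw [InfinitePlace.card_eq_nrRealPlaces_add_nrComplexPlaces]
  have : Nonempty (A ⊕ B) := by
    obtain ⟨w⟩ : Nonempty (InfinitePlace K) := inferInstance
    rcases w.isReal_or_isComplex with h | h
    · exact ⟨Sum.inl ⟨w, h⟩⟩
    · exact ⟨Sum.inr ⟨w, h⟩⟩
  have hfr : finrank ℝ ((A → ℝ) × (B → ℂ)) = n := by
    rw [← hn]
    exact mixedEmbedding.finrank K
  obtain ⟨ψ, hch, hv, hlift, hker⟩ := Pool.Agent.W54.CL.hChart A B
  have h1 : ∀ j, ∃ (g : (A → ℝ) × (B → ℂ)) (ε : ((A → ℝ) × (B → ℂ))ˣ),
      Pool.Agent.W54.CL.IsSign ε ∧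
      Units.map (mixedEmbedding K : K →* (A → ℝ) × (B → ℂ)) (γ j) = ψ g * ε := by
    intro j
    obtain ⟨g, ε, h, h'⟩ := hlift (Units.map (mixedEmbedding K : K →* (A → ℝ) × (B → ℂ)) (γ j))
    exact ⟨g, ε, h', h⟩
  choose g ε hε hg using h1
  refine hC A B hAB g (fun r x => Pool.Agent.R350.alg_exp_cw hv (hε x) (hg x) r)
    (Pool.Agent.R350.cw_indep hγ hv g ε hε hg) T hT _ (fun m hm => ?_)
  rw [Finset.mem_filter] at hm
  refine ⟨fun i x => ?_, fun hN => hm.2 ?_⟩
  · exact (Fintype.mem_piFinset.1 ((Fintype.mem_piFinset.1 hm.1) i)) x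
  intro L hL
  have hpos : 1 ≤ finrank ℝ ((A → ℝ) × (B → ℂ)) := by
    rw [hfr]
    have : 0 < Fintype.card (A ⊕ B) := Fintype.card_pos
    rw [Fintype.card_sum] at this
    omega
  have hN' : Pool.Agent.R350.GenVec (fun i => ∑ x, (m i x : ℝ) • g x) (Pool.Agent.W54.CL.wv A)
      (finrank ℝ ((A → ℝ) × (B → ℂ))) := by
    rw [hfr]
    exact hN
  choose η hη hη' using fun i => Pool.Agent.R350.map_prod_zpow hch
    (mixedEmbedding K : K →+* (A → ℝ) × (B → ℂ)) γ g ε hε hg (m i)
  obtain ⟨h2, _, _⟩ := Pool.Agent.W54.CL.hComp _ _ ψ hch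
    (L.map (Units.map (mixedEmbedding K : K →* (A → ℝ) × (B → ℂ))))
  rcases Pool.Agent.R350.alt_gen hch (mixedEmbedding K : K →+* (A → ℝ) × (B → ℂ)) hker
    (fun i => ∏ x, γ x ^ m i x) (fun i => ∑ x, (m i x : ℝ) • g x) η hη hη' hN' L hL with h | ⟨h, c, hc, hc'⟩
  · left
    refine ⟨fun hr => ?_, ?_⟩
    · have h3 := Pool.Agent.R350.rank_le_of_bot hch
        (mixedEmbedding K : K →+* (A → ℝ) × (B → ℂ)) hv hlift L hr h
      rw [hfr] at h3
      omega
    · have h3 : connectedComponentIn (cl K L) 1 = ψ '' (Pool.Agent.W54.CL.maxSub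
        (Pool.Agent.W54.CL.pre hch (L.map
          (Units.map (mixedEmbedding K : K →* (A → ℝ) × (B → ℂ))))) : Set _) := h2
      rw [h3, h]
      simp [hch.map_zero]
  · right
    refine ⟨?_, ?_⟩
    · have h3 := Pool.Agent.R350.indepIn_of_top hch
        (mixedEmbedding K : K →+* (A → ℝ) × (B → ℂ)) hker (fun i => ∑ x, (m i x : ℝ) • g x) hN'
        hpos L c hc hc'
      have h4 : finrank ℝ ((A → ℝ) × (B → ℂ)) + 1 - Fintype.card B =
          Fintype.card (InfinitePlace K) + 1 := by
        rw [hfr]
        omega
      rw [h4] at h3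
      exact h3
    · have h3 : connectedComponentIn (cl K L) 1 = ψ '' (Pool.Agent.W54.CL.maxSub
        (Pool.Agent.W54.CL.pre hch (L.map
          (Units.map (mixedEmbedding K : K →* (A → ℝ) × (B → ℂ))))) : Set _) := h2
      rw [h3, h]
      have h4 := Pool.Agent.W54.CL.comp_top Pool.Agent.W54.CL.hComp hch
      exact Set.image_univ.trans h4.symm

end Pool.Agent.Results.MP_7de521_nt.AlmostAllSubgroups
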