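import Mathlib
import Pool.Agent.R350.IJ
import Pool.Agent.R350.IK

/-!
# The real part of the expected answer for norm one tori and almost all finitely generated groups

Let `K` be a number field of degree `n ≥ 2` with `r = r₁ + r₂` infinite places and `A = R^1_{K/ℚ}(G_m)`
the torus of the elements of norm one, of dimension `n - 1`. If the Galois group of `K` is doubly
transitive on the `n` embeddings of `K` then `A` is simple over `ℚ`. Let `γ_1, …, γ_N ∈ A(ℚ)`, where
either the Galois group is doubly transitive and the `γ_x` are multiplicatively independent, or (for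
any `K`) the conjugates of the `γ_x` satisfy no multiplicative relations besides those given by the
norm. We consider the groups generated by `l` elements

  `δ_i = ∏_x γ_x ^ (m_{i x})`, `1 ≤ i ≤ l`, `m_{i x} ∈ T`,

for a finite set `T` of integers. For all but `C |T| ^ ((l - 1) N + c)` of the `|T| ^ (l N)` matrices `m`,
where `c` depends only on `n` and `l`, EVERY subgroup `L` of the group generated by the `δ_i` has the
following property: if its rank is at most `r - 1` the identity component of its closure in `A(ℝ)` is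
trivial, so that `L` is discrete, and otherwise the closure contains the identity component of `A(ℝ)`.

The proof follows that for `R_{K/ℚ}(G_m)`, in the hyperplane of trace zero of the space of
logarithms: a bad subgroup gives a polynomial relation of degree at most `n - 1` between `n - 1` of
the logarithms of the conjugates of the `δ_i`, with coefficients which are integers of any size and
powers of `2 π i`, and such relations are rare (derivations of ultrapowers and the theorem of
Waldschmidt and Roy on hyperplanes, in the starting library).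
-/

set_option autoImplicit false

namespace Pool.Agent.Results.MP_7de521_nt.NormOneTori

open Module NumberField Topology Filter

/-- `(K ⊗ ℝ)ˣ`, the unit group of `ℝ ^ r₁ × ℂ ^ r₂`. -/
abbrev RealPoints (K : Type) [Field K] [NumberField K] : Type := (mixedEmbedding.mixedSpace K)ˣ

open Classical in
/-- `A(ℝ)`, the elements of norm one of `(K ⊗ ℝ)ˣ`. -/
def normOne (K : Type) [Field K] [NumberField K] : Set (RealPoints K) :=
  {u | (∏ w, (u : mixedEmbedding.mixedSpace K).1 w) *
    ∏ w, ‖(u : mixedEmbedding.mixedSpace K).2 w‖ ^ 2 = 1}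

/-- The closure of a subgroup of `A(ℚ) ⊆ Kˣ` in `A(ℝ)`, or in `(K ⊗ ℝ)ˣ`. -/
def cl (K : Type) [Field K] [NumberField K] (L : Subgroup Kˣ) : Set (RealPoints K) :=
  closure (L.map (Units.map (mixedEmbedding K : K →* mixedEmbedding.mixedSpace K)) :
    Set (RealPoints K))

/-- The Galois group acts doubly transitively on the embeddings of `K` (so that the norm one torus is
simple over `ℚ`). -/
def DoublyTransitive (K : Type) [Field K] : Prop :=
  ∀ σ σ' τ τ' : K →+* AlgebraicClosure ℚ, σ ≠ σ' → τ ≠ τ' →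
    ∃ g : AlgebraicClosure ℚ →+* AlgebraicClosure ℚ, g.comp σ = τ ∧ g.comp σ' = τ'

/-- The group generated by the `δ_i = ∏_x γ_x ^ (m i x)`. -/
def group {K : Type} [Field K] {l N : ℕ} (γ : Fin N → Kˣ) (m : Fin l → Fin N → ℤ) :
    Subgroup Kˣ :=
  Subgroup.closure (Set.range fun i => ∏ x, γ x ^ m i x)

/-- The `y_i` are multiplicatively independent. -/
def IndependentOverZ {K : Type} [Field K] {s : ℕ} (y : Fin s → Kˣ) : Prop :=
  ∀ e : Fin s → ℤ, ∏ i, y i ^ e i = 1 → e = 0

/-- The `γ_x` have norm one, and either there are no other multiplicative relations between their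
conjugates, or the Galois group is doubly transitive and the `γ_x` are multiplicatively
independent. -/
def Admissible (K : Type) [Field K] [NumberField K] {N : ℕ} (γ : Fin N → Kˣ) : Prop :=
  (∀ x, Algebra.norm ℚ (γ x : K) = 1) ∧
  ((DoublyTransitive K ∧ IndependentOverZ γ) ∨
    ∀ (e : (K →+* AlgebraicClosure ℚ) → Fin N → ℤ) (r : ℚ),
      ∏ σ, ∏ x, σ (γ x : K) ^ e σ x = (r : AlgebraicClosure ℚ) → ∀ x σ σ', e σ x = e σ' x)

theorem Admissible.only {K : Type} [Field K] [NumberField K] {N : ℕ} {γ : Fin N → Kˣ}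
    (h : Admissible K γ) (e : (K →+* AlgebraicClosure ℚ) → Fin N → ℤ) (r : ℚ)
    (hr : ∏ σ, ∏ x, σ (γ x : K) ^ e σ x = (r : AlgebraicClosure ℚ)) :
    ∀ x σ σ', e σ x = e σ' x := by
  rcases h.2 with ⟨hDT, hi⟩ | h'
  · exact Pool.Agent.R350.only_norm_relations hDT γ h.1 hi e r hr
  · exact h' e r hr

/-- The rank of `L` is at least `s`: it contains `s` multiplicatively independent elements. -/
def RankAtLeast {K : Type} [Field K] (L : Subgroup Kˣ) (s : ℕ) : Prop :=
  ∃ y : Fin s → Kˣ, (∀ i, y i ∈ L) ∧ IndependentOverZ y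

/-- Every subgroup `L` has a closure with trivial identity component if its rank is smaller than the
number of infinite places of `K`, and otherwise this identity component is that of `A(ℝ)`. -/
def ExpectedReal (K : Type) [Field K] [NumberField K] {l N : ℕ} (γ : Fin N → Kˣ)
    (m : Fin l → Fin N → ℤ) : Prop :=
  ∀ L ≤ group γ m,
    (¬ RankAtLeast L (Fintype.card (InfinitePlace K)) ∧
      connectedComponentIn (cl K L) 1 = {1}) ∨
    (RankAtLeast L (Fintype.card (InfinitePlace K)) ∧
      connectedComponentIn (cl K L) 1 = connectedComponentIn (normOne K) 1)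

open Classical in
theorem count_real (n l : ℕ) (hn2 : 2 ≤ n) (N : ℕ) : ∃ C : ℕ, ∀ (K : Type) [Field K]
    [NumberField K], finrank ℚ K = n → ∀ γ : Fin N → Kˣ, Admissible K γ →
    ∀ T : Finset ℤ, T.Nonempty →
      ((Fintype.piFinset fun _ : Fin l => Fintype.piFinset fun _ : Fin N => T).filter fun m =>
        ¬ ExpectedReal K γ m).card ≤ C * T.card ^ ((l - 1) * N +
          (2 ^ (n - 1) * (l * (n - 1) + (n - 1)).choose (n - 1) + (l * (n - 1)) ^ 2)) := by
  obtain ⟨C, hC⟩ := Pool.Agent.R350.count_gen (n - 1) l N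
  refine ⟨C, fun K _ _ hn γ hγ T hT => ?_⟩
  let A := {w : InfinitePlace K // w.IsReal}
  let B := {w : InfinitePlace K // w.IsComplex}
  have hAB : Fintype.card A + 2 * Fintype.card B = n := by
    rw [← hn, ← InfinitePlace.card_add_two_mul_card_eq_rank K]
  have hAB2 : Fintype.card A + Fintype.card B = Fintype.card (InfinitePlace K) := by
    rw [InfinitePlace.card_eq_nrRealPlaces_add_nrComplexPlaces]
  have hne : Nonempty (A ⊕ B) := by
    obtain ⟨w⟩ : Nonempty (InfinitePlace K) := inferInstance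
    rcases w.isReal_or_isComplex with h | h
    · exact ⟨Sum.inl ⟨w, h⟩⟩
    · exact ⟨Sum.inr ⟨w, h⟩⟩
  obtain ⟨ψ, hch, hv, hlift, hker⟩ := Pool.Agent.W54.CL.hChart A B
  have h1 : ∀ j, ∃ (g : (A → ℝ) × (B → ℂ)) (ε : ((A → ℝ) × (B → ℂ))ˣ),
      Pool.Agent.W54.CL.IsSign ε ∧
      Units.map (mixedEmbedding K : K →* (A → ℝ) × (B → ℂ)) (γ j) = ψ g * ε := by
    intro j
    obtain ⟨g, ε, h, h'⟩ := hlift (Units.map (mixedEmbedding K : K →* (A → ℝ) × (B → ℂ)) (γ j))
    exact ⟨g, ε, h', h⟩
  choose g ε hε hg using h1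
  have ht : ∀ x, Pool.Agent.R350.trl A B (g x) = 0 := fun x =>
    Pool.Agent.R350.trl_zero hv (hε x) (hg x) (hγ.1 x)
  obtain ⟨r₀, hr₀⟩ := Pool.Agent.R350.exists_r₀ (A := A) (B := B)
  obtain ⟨e, he⟩ := Pool.Agent.R350.exists_crd r₀ hr₀
  have hcardI : Fintype.card {r : A ⊕ B ⊕ B // r ≠ r₀} = n - 1 := by
    rw [Fintype.card_subtype_compl, Fintype.card_subtype_eq, Fintype.card_sum, Fintype.card_sum]
    omega
  have hfr : finrank ℝ (LinearMap.ker (Pool.Agent.R350.trl A B)) = n - 1 := by
    rw [e.finrank_eq, Module.finrank_fintype_fun_eq_card, hcardI]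
  have hω : LinearIndependent ℝ (fun b : B => (⟨Pool.Agent.W54.CL.wv A b,
      Pool.Agent.R350.trl_wv b⟩ : LinearMap.ker (Pool.Agent.R350.trl A B))) :=
    LinearIndependent.of_comp (LinearMap.ker (Pool.Agent.R350.trl A B)).subtype
      Pool.Agent.R350.wv_indep
  refine hC {r : A ⊕ B ⊕ B // r ≠ r₀} B (LinearMap.ker (Pool.Agent.R350.trl A B)) e
    (fun b => ⟨Pool.Agent.W54.CL.wv A b, Pool.Agent.R350.trl_wv b⟩) hcardI hω (fun b r => ?_)
    (fun x => ⟨g x, ht x⟩) (fun x r => ?_) ?_ T hT _ (fun m hm => ?_)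
  · rw [he]
    exact Pool.Agent.R350.crd_wv b r.1
  · rw [he]
    exact Pool.Agent.R350.crd_mem (fun r => Pool.Agent.R350.alg_exp_cw hv (hε x) (hg x) r) r.1
  · simp only [he]
    refine Pool.Agent.R350.crd_indep_of_rel g r₀ hr₀ ?_
    refine Pool.Agent.R350.hrel_norm (fun e he x σ σ' => ?_) hv g ε hε hg ht r₀
    refine Pool.Agent.R350.transfer hγ.only e 1 ?_ x σ σ'
    rw [he, Rat.cast_one]
  rw [Finset.mem_filter] at hm
  refine ⟨fun i x => ?_, fun hN => hm.2 ?_⟩
  · exact (Fintype.mem_piFinset.1 ((Fintype.mem_piFinset.1 hm.1) i)) x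
  intro L hL
  have hG : ∀ j, Pool.Agent.R350.trl A B (∑ x, (m j x : ℝ) • g x) = 0 := by
    intro j
    rw [map_sum]
    refine Finset.sum_eq_zero fun x _ => ?_
    rw [map_smul, ht, smul_zero]
  have hGe : (fun j => (⟨∑ x, (m j x : ℝ) • g x, hG j⟩ :
      LinearMap.ker (Pool.Agent.R350.trl A B))) = fun i => ∑ x, (m i x : ℝ) •
        (⟨g x, ht x⟩ : LinearMap.ker (Pool.Agent.R350.trl A B)) := by
    funext j
    apply Subtype.ext
    rw [Submodule.coe_sum]
    rfl
  rw [← hGe] at hN
  have hN0 : ∀ c : (Fin l → ℤ) × (B → ℤ), Pool.Agent.R350.castV c ≠ 0 →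
      ∑ j, (c.1 j : ℝ) • (∑ x, (m j x : ℝ) • g x) +
        ∑ b, (c.2 b : ℝ) • Pool.Agent.W54.CL.wv A b ≠ 0 := by
    intro c hc h0
    refine hN.ne_zero (by omega) c hc ?_
    apply Subtype.ext
    rw [Submodule.coe_add, Submodule.coe_sum, Submodule.coe_sum]
    exact h0
  rw [← hfr] at hN
  have hLN : L.map (Units.map (mixedEmbedding K : K →* (A → ℝ) × (B → ℂ))) ≤
      Pool.Agent.R350.N1 A B := by
    rw [Subgroup.map_le_iff_le_comap]
    refine hL.trans ?_
    unfold group
    rw [Subgroup.closure_le]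
    rintro _ ⟨i, rfl⟩
    refine Subgroup.prod_mem _ fun x _ => Subgroup.zpow_mem _ ?_ _
    change Pool.Agent.R350.nrm (mixedEmbedding K (γ x : K)) = 1
    rw [Pool.Agent.R350.nrm_mixed, hγ.1 x, Rat.cast_one]
  choose η hη hη' using fun i => Pool.Agent.R350.map_prod_zpow hch
    (mixedEmbedding K : K →+* (A → ℝ) × (B → ℂ)) γ g ε hε hg (m i)
  obtain ⟨h2, _, _⟩ := Pool.Agent.W54.CL.hComp _ _ ψ hch
    (L.map (Units.map (mixedEmbedding K : K →* (A → ℝ) × (B → ℂ))))
  have h3 : connectedComponentIn (cl K L) 1 = ψ '' (Pool.Agent.W54.CL.maxSub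
    (Pool.Agent.W54.CL.pre hch (L.map
      (Units.map (mixedEmbedding K : K →* (A → ℝ) × (B → ℂ))))) : Set _) := h2
  rcases Pool.Agent.R350.alt_norm hch (mixedEmbedding K : K →+* (A → ℝ) × (B → ℂ)) hv hker
    (fun i => ∏ x, γ x ^ m i x) (fun i => ∑ x, (m i x : ℝ) • g x) η hη hη' hG hN L hL hLN with
    h | ⟨h, c, hc, hc'⟩
  · left
    refine ⟨fun hr => ?_, ?_⟩
    · have h3 := Pool.Agent.R350.rank_le_of_bot_norm hch
        (mixedEmbedding K : K →+* (A → ℝ) × (B → ℂ)) hv hlift L hLN hr h
      rw [hfr] at h3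
      omega
    · rw [h3, h]
      simp [hch.map_zero]
  · right
    refine ⟨?_, ?_⟩
    · have h3 := Pool.Agent.R350.indepIn_of_vecs hch
        (mixedEmbedding K : K →+* (A → ℝ) × (B → ℂ)) hker (fun i => ∑ x, (m i x : ℝ) • g x) hN0
        L c hc hc'
      have h4 : finrank ℝ (LinearMap.ker (Pool.Agent.R350.trl A B)) + 1 - Fintype.card B =
          Fintype.card (InfinitePlace K) := by
        rw [hfr]
        omega
      rw [h4] at h3
      exact h3
    · rw [h3, h]
      exact (Pool.Agent.R350.comp_N1 hch hv).symm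

open Classical in
/-- **Main result.** -/
theorem result (n l : ℕ) (hn2 : 2 ≤ n) : ∃ c : ℕ, ∀ N : ℕ, ∃ C : ℕ,
    ∀ (K : Type) [Field K] [NumberField K], finrank ℚ K = n →
    ∀ γ : Fin N → Kˣ, Admissible K γ → ∀ T : Finset ℤ, T.Nonempty →
      ((Fintype.piFinset fun _ : Fin l => Fintype.piFinset fun _ : Fin N => T).filter fun m =>
        ¬ ExpectedReal K γ m).card ≤ C * T.card ^ ((l - 1) * N + c) :=
  ⟨2 ^ (n - 1) * (l * (n - 1) + (n - 1)).choose (n - 1) + (l * (n - 1)) ^ 2,
    fun N => count_real n l hn2 N⟩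

end Pool.Agent.Results.MP_7de521_nt.NormOneTori
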