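import Mathlib
import Pool.Agent.R350.IJ
import Pool.Agent.R350.IK

/-!
# The p-adic part of the expected answer for norm one tori and almost all finitely generated groups

Let `K` be a number field of degree `n` and `A = R^1_{K/ℚ}(G_m)` the torus of the elements of norm
one, of dimension `n - 1`. If the Galois group of `K` is doubly transitive on the `n` embeddings of
`K` then `A` is simple over `ℚ`. Let `γ_1, …, γ_N ∈ A(ℚ)`, where either the Galois group is doubly
transitive and the `γ_x` are multiplicatively independent, or (for any `K`) the conjugates of the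
`γ_x` satisfy no multiplicative relations besides those given by the norm. We consider the groups
generated by `l` elements

  `δ_i = ∏_x γ_x ^ (m_{i x})`, `1 ≤ i ≤ l`, `m_{i x} ∈ T`,

for a finite set `T` of integers. For all but `C |T| ^ ((l - 1) N + c)` of the `|T| ^ (l N)` matrices `m`,
where `c` depends only on `n` and `l`, any `s ≤ n - 1 = dim A` multiplicatively independent elements of
the group generated by the `δ_i` are independent over `ℤ_p` in `A(ℚ_p)`. So the closure of every
subgroup `L` of this group which lies in a compact subgroup of `A(ℚ_p)` has the `ℤ_p`-rank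
`min (rank L, dim A)`, as it should.

The proof: otherwise a minor of the matrix of the `p`-adic logarithms vanishes, a relation of degree
at most `n - 1` between `n - 1` of the logarithms of the conjugates of the `δ_j` with integral
coefficients which are not bounded. Such relations are treated with derivations of ultrapowers and
the `p`-adic form of the theorem of Waldschmidt and Roy on hyperplanes (in the starting library).
-/

set_option autoImplicit false

namespace Pool.Agent.Results.MP_7de521_nt.NormOneToriPadic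

open Module NumberField Topology Filter
open Pool.Agent.H440R3 (Kp QpPoints incl)

/-- The Galois group acts doubly transitively on the embeddings of `K` (so that the norm one torus is
simple over `ℚ`). -/
def DoublyTransitive (K : Type) [Field K] : Prop :=
  ∀ σ σ' τ τ' : K →+* AlgebraicClosure ℚ, σ ≠ σ' → τ ≠ τ' →
    ∃ g : AlgebraicClosure ℚ →+* AlgebraicClosure ℚ, g.comp σ = τ ∧ g.comp σ' = τ'

/-- The group generated by the `δ_i = ∏_x γ_x ^ (m i x)`. -/
def group {K : Type} [Field K] {l N : ℕ} (γ : Fin N → Kˣ) (m : Fin l → Fin N → ℤ) :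
    Subgroup Kˣ :=
  Subgroup.closure (Set.range fun i => ∏ x, γ x ^ m i x)

/-- The `y_i` are multiplicatively independent. -/
def IndependentOverZ {K : Type} [Field K] {s : ℕ} (y : Fin s → Kˣ) : Prop :=
  ∀ e : Fin s → ℤ, ∏ i, y i ^ e i = 1 → e = 0

/-- The `γ_x` have norm one, and either there are no other multiplicative relations between their
conjugates, or the Galois group is doubly transitive and the `γ_x` are multiplicatively
independent. -/
def Admissible (K : Type) [Field K] [NumberField K] {N : ℕ} (γ : Fin N → Kˣ) : Prop :=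
  (∀ x, Algebra.norm ℚ (γ x : K) = 1) ∧
  ((DoublyTransitive K ∧ IndependentOverZ γ) ∨
    ∀ (e : (K →+* AlgebraicClosure ℚ) → Fin N → ℤ) (r : ℚ),
      ∏ σ, ∏ x, σ (γ x : K) ^ e σ x = (r : AlgebraicClosure ℚ) → ∀ x σ σ', e σ x = e σ' x)

theorem Admissible.only {K : Type} [Field K] [NumberField K] {N : ℕ} {γ : Fin N → Kˣ}
    (h : Admissible K γ) (e : (K →+* AlgebraicClosure ℚ) → Fin N → ℤ) (r : ℚ)
    (hr : ∏ σ, ∏ x, σ (γ x : K) ^ e σ x = (r : AlgebraicClosure ℚ)) :
    ∀ x σ σ', e σ x = e σ' x := by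
  rcases h.2 with ⟨hDT, hi⟩ | h'
  · exact Pool.Agent.R350.only_norm_relations hDT γ h.1 hi e r hr
  · exact h' e r hr

/-- The `y_i` are independent over `ℤ_p` in `A(ℚ_p) ⊆ (ℚ_p ⊗ K)ˣ`: if `∏ y_i ^ (a_k(i))` converges
to `1` then the `a_k(i)` converge to `0` in `ℤ_p`. -/
def IndependentOverZp (p : ℕ) [Fact p.Prime] (K : Type) [Field K] [NumberField K] {s : ℕ}
    (y : Fin s → Kˣ) : Prop :=
  ∀ a : ℕ → Fin s → ℤ,
    Tendsto (fun k => incl p K (∏ i, y i ^ a k i)) atTop (𝓝 (1 : QpPoints p K)) →
      ∀ i, Tendsto (fun k => ((a k i : ℤ) : ℤ_[p])) atTop (𝓝 0)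

/-- Any `s ≤ dim A` multiplicatively independent elements of the group are independent over
`ℤ_p`. -/
def ExpectedPadic (p : ℕ) [Fact p.Prime] (K : Type) [Field K] [NumberField K] {l N : ℕ}
    (γ : Fin N → Kˣ) (m : Fin l → Fin N → ℤ) : Prop :=
  ∀ s ≤ finrank ℚ K - 1, ∀ y : Fin s → Kˣ, (∀ i, y i ∈ group γ m) → IndependentOverZ y →
    IndependentOverZp p K y

/-- elements of a group generated by products -/
theorem mem_group {K : Type} [Field K] {l : ℕ} (δ : Fin l → Kˣ) {y : Kˣ}
    (hy : y ∈ Subgroup.closure (Set.range δ)) : ∃ c : Fin l → ℤ, y = ∏ j, δ j ^ c j := by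
  classical
  induction hy using Subgroup.closure_induction with
  | mem y hy =>
    obtain ⟨j, rfl⟩ := hy
    refine ⟨Pi.single j 1, ?_⟩
    rw [Finset.prod_eq_single j]
    · simp
    · intro k _ hk
      simp [Pi.single_eq_of_ne hk]
    · intro h
      exact absurd (Finset.mem_univ j) h
  | one => exact ⟨0, by simp⟩
  | mul x y _ _ ihx ihy =>
    obtain ⟨c, rfl⟩ := ihx
    obtain ⟨c', rfl⟩ := ihy
    refine ⟨c + c', ?_⟩
    rw [← Finset.prod_mul_distrib]
    exact Finset.prod_congr rfl fun j _ => (zpow_add _ _ _).symm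
  | inv x _ ihx =>
    obtain ⟨c, rfl⟩ := ihx
    refine ⟨-c, ?_⟩
    rw [← Finset.prod_inv_distrib]
    exact Finset.prod_congr rfl fun j _ => (zpow_neg _ _).symm

theorem prod_zpow_sum {G ι : Type} [CommGroup G] (s : Finset ι) (g : G) (f : ι → ℤ) :
    g ^ (∑ i ∈ s, f i) = ∏ i ∈ s, g ^ f i := by
  classical
  induction s using Finset.induction_on with
  | empty => simp
  | insert i s hi ih => rw [Finset.sum_insert hi, Finset.prod_insert hi, zpow_add, ih]

open Classical in
theorem count_padic (n l : ℕ) (p : ℕ) [Fact p.Prime] (N : ℕ) : ∃ C : ℕ,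
    ∀ (K : Type) [Field K] [NumberField K], finrank ℚ K = n →
    ∀ γ : Fin N → Kˣ, Admissible K γ → ∀ T : Finset ℤ, T.Nonempty →
      ((Fintype.piFinset fun _ : Fin l => Fintype.piFinset fun _ : Fin N => T).filter fun m =>
        ¬ ExpectedPadic p K γ m).card ≤ C * T.card ^ ((l - 1) * N +
          ((l * (n - 1) + (n - 1)).choose (n - 1) + (l * (n - 1)) ^ 2)) := by
  obtain ⟨L, hL⟩ := Pool.Agent.R350.exists_log p
  obtain ⟨C, hC⟩ := Pool.Agent.R350.count_padic hL (n - 1) l N
  refine ⟨C, fun K _ _ hn γ hγ T hT => ?_⟩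
  have hcard : Fintype.card (K →+* PadicAlgCl p) = n := by
    rw [← hn]
    exact NumberField.Embeddings.card K (PadicAlgCl p)
  obtain ⟨σ₀⟩ : Nonempty (K →+* PadicAlgCl p) := by
    rw [← Fintype.card_pos_iff, hcard, ← hn]
    exact finrank_pos
  have hcardI : Fintype.card {σ : K →+* PadicAlgCl p // σ ≠ σ₀} = n - 1 := by
    rw [Fintype.card_subtype_compl, Fintype.card_subtype_eq, hcard]
  have hne : ∀ (σ : K →+* PadicAlgCl p) (z : Kˣ), σ (z : K) ≠ 0 := fun σ z h =>
    z.ne_zero (σ.injective (by rw [h, map_zero]))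
  have hlog : ∀ (σ : K →+* PadicAlgCl p) (k : ℕ) (δ : Fin k → Kˣ) (c : Fin k → ℤ),
      L (σ ((∏ j, δ j ^ c j : Kˣ) : K)) = ∑ j, ((c j : ℤ) : PadicAlgCl p) * L (σ (δ j : K)) := by
    intro σ k δ c
    have h4 : σ ((∏ j, δ j ^ c j : Kˣ) : K) = ∏ j, σ (δ j : K) ^ c j := by
      rw [Units.coe_prod, map_prod]
      refine Finset.prod_congr rfl fun j _ => ?_
      rw [Units.val_zpow_eq_zpow_val, map_zpow₀]
    rw [h4, hL.prod _ _ (fun j _ => zpow_ne_zero _ (hne σ (δ j)))]
    exact Finset.sum_congr rfl fun j _ => hL.zpow (hne σ (δ j)) _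
  refine hC {σ : K →+* PadicAlgCl p // σ ≠ σ₀} hcardI (fun σ x => L (σ.1 (γ x : K)))
    (fun σ x => ?_) (Pool.Agent.R350.padic_indep_norm hL γ (fun e a he x σ σ' => ?_) σ₀) T hT _
    (fun m hm => ?_)
  · have h2 : IsAlgebraic ℚ (γ x : K) := Algebra.IsAlgebraic.isAlgebraic _
    exact Pool.Agent.Y787.log_mem ⟨σ.1 (γ x : K), hne σ.1 (γ x), h2.algHom (σ.1.toRatAlgHom), rfl⟩
  · refine Pool.Agent.R350.transfer hγ.only e ((p : ℚ) ^ a) ?_ x σ σ'
    rw [he]
    push_cast
    rfl
  rw [Finset.mem_filter] at hm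
  refine ⟨fun i x => ?_, fun hN => hm.2 ?_⟩
  · exact (Fintype.mem_piFinset.1 ((Fintype.mem_piFinset.1 hm.1) i)) x
  intro s hs y hyL hy
  choose c hc using fun i => mem_group (fun i => ∏ x, γ x ^ m i x) (hyL i)
  -- the exponents are independent
  have hci : LinearIndependent (PadicAlgCl p) (fun q j => ((c q j : ℤ) : PadicAlgCl p)) := by
    have h1 : LinearIndependent ℤ c := by
      rw [Fintype.linearIndependent_iff]
      intro e he
      have h2 := hy e (by
        have h3 : ∀ i, y i ^ e i = ∏ j, (∏ x, γ x ^ m j x) ^ (e i * c i j) := by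
          intro i
          rw [hc i, ← Finset.prod_zpow]
          refine Finset.prod_congr rfl fun j _ => ?_
          rw [← zpow_mul, mul_comm]
        simp only [h3]
        rw [Finset.prod_comm]
        refine Finset.prod_eq_one fun j _ => ?_
        have h4 := congrFun he j
        rw [Finset.sum_apply, Pi.zero_apply] at h4
        simp only [Pi.smul_apply, smul_eq_mul] at h4
        have h5 := congrArg (fun z : ℤ => (∏ x, γ x ^ m j x) ^ z) h4
        simp only [zpow_zero] at h5
        rw [← h5]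
        exact (prod_zpow_sum _ _ _).symm)
      exact fun i => congrFun h2 i
    exact (linearIndependent_algebraMap_comp_iff (R := ℤ) (S := PadicAlgCl p)).2 h1
  have hli := hN s (by rw [← hn]; exact hs) c hci
  intro a ha i
  refine Pool.Agent.R350.padic_tendsto hL y ?_ a ha i
  refine LinearIndependent.of_comp (LinearMap.funLeft (PadicAlgCl p) (PadicAlgCl p)
    (Subtype.val : {σ : K →+* PadicAlgCl p // σ ≠ σ₀} → (K →+* PadicAlgCl p))) ?_
  have h1 : (⇑(LinearMap.funLeft (PadicAlgCl p) (PadicAlgCl p)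
      (Subtype.val : {σ : K →+* PadicAlgCl p // σ ≠ σ₀} → (K →+* PadicAlgCl p))) ∘
      fun (i : Fin s) (σ : K →+* PadicAlgCl p) => L (σ (y i : K))) = fun q =>
      ∑ j, ((c q j : ℤ) : PadicAlgCl p) • fun r : {σ : K →+* PadicAlgCl p // σ ≠ σ₀} =>
        ∑ x, (m j x : PadicAlgCl p) * L (r.1 (γ x : K)) := by
    funext i σ
    rw [Finset.sum_apply]
    change L (σ.1 (y i : K)) = _
    rw [hc i, hlog σ.1 l _ (c i)]
    refine Finset.sum_congr rfl fun j _ => ?_
    rw [hlog σ.1 N γ (m j), Pi.smul_apply, smul_eq_mul]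
  rw [h1]
  exact hli

open Classical in
/-- **Main result.** -/
theorem result (n l : ℕ) : ∃ c : ℕ, ∀ (p : ℕ) [Fact p.Prime] (N : ℕ), ∃ C : ℕ,
    ∀ (K : Type) [Field K] [NumberField K], finrank ℚ K = n →
    ∀ γ : Fin N → Kˣ, Admissible K γ → ∀ T : Finset ℤ, T.Nonempty →
      ((Fintype.piFinset fun _ : Fin l => Fintype.piFinset fun _ : Fin N => T).filter fun m =>
        ¬ ExpectedPadic p K γ m).card ≤ C * T.card ^ ((l - 1) * N + c) :=
  ⟨(l * (n - 1) + (n - 1)).choose (n - 1) + (l * (n - 1)) ^ 2,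
    fun p _ N => count_padic n l p N⟩

end Pool.Agent.Results.MP_7de521_nt.NormOneToriPadic
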